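import Pool.Agent.Helper73.LF.GoalsC
import Pool.Agent.Helper96.LF.FOU

/-!
# LF-FOU with a shift (MP_c307ca_nt, project LF)
-/

set_option autoImplicit false

open Finset

namespace Pool.Agent.Helper96.LF

open Pool.Agent.Helper98.Lang Pool.Agent.Helper8.Lang Pool.Agent.Helper73.LF

lemma boxB_le (m H : ℕ) (θ : Fin m → ℝ) (β : ℝ)
    (hθ : ∀ h : ℕ, 1 ≤ h → ∀ i, 0 < nd (h * θ i))
    (h : ℕ) (hh : 1 ≤ h) (σ : ℝ) (hσ : σ = h ∨ σ = -h) :
    ‖∑ a ∈ Fintype.piFinset (fun _ : Fin m => Icc (-(H : ℤ)) H),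
      ec (σ * (β + ∑ i, (a i : ℝ) * θ i))‖ ≤ Pr θ H h := by
  have e : ∑ a ∈ Fintype.piFinset (fun _ : Fin m => Icc (-(H : ℤ)) H),
      ec (σ * (β + ∑ i, (a i : ℝ) * θ i)) = ec (σ * β) *
      ∑ a ∈ Fintype.piFinset (fun _ : Fin m => Icc (-(H : ℤ)) H),
        ec (σ * ∑ i, (a i : ℝ) * θ i) := by
    rw [Finset.mul_sum]
    refine Finset.sum_congr rfl fun a _ => ?_
    rw [mul_add, ec_add]
  rw [e, norm_mul, norm_ec, one_mul]
  exact box_le m H θ hθ h hh σ hσ

/-- **LF-FOU with a shift.** -/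
theorem fouB : GFouB := by
  intro m H T θ β hT hθ S hS
  set B : Finset (Fin m → ℤ) := Fintype.piFinset (fun _ : Fin m => Icc (-(H : ℤ)) H) with hB
  have hT0 : (0 : ℝ) < T := by exact_mod_cast hT
  have hpi := Real.pi_pos
  have hSB : S ⊆ B := by
    intro a ha
    rw [hB, Fintype.mem_piFinset]
    intro i
    rw [mem_Icc]
    exact abs_le.1 ((hS a ha).1 i)
  set L : (Fin m → ℤ) → ℝ := fun a => β + ∑ i, (a i : ℝ) * θ i with hL
  set A : ℝ := (2 * (H : ℝ) + 1) ^ m + 2 * ∑ h ∈ Ico 1 T, Pr θ H h with hA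
  have hA0 : 0 ≤ A := by
    have : 0 ≤ ∑ h ∈ Ico 1 T, Pr θ H h := Finset.sum_nonneg fun h _ => Pr_nonneg m H θ h
    rw [hA]
    positivity
  have h1 : (S.card : ℝ) * (2 * T / Real.pi) ^ 2 ≤ ∑ a ∈ B, ‖DS T (L a)‖ ^ 2 := by
    calc (S.card : ℝ) * (2 * T / Real.pi) ^ 2 = ∑ a ∈ S, (2 * (T : ℝ) / Real.pi) ^ 2 := by
          rw [Finset.sum_const, nsmul_eq_mul]
      _ ≤ ∑ a ∈ S, ‖DS T (L a)‖ ^ 2 := by
          refine Finset.sum_le_sum fun a ha => ?_
          have := DS_ge T hT (L a) (hS a ha).2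
          gcongr
      _ ≤ _ := Finset.sum_le_sum_of_subset_of_nonneg hSB fun _ _ _ => by positivity
  have hsq : ∀ t : ℝ, ((‖DS T t‖ ^ 2 : ℝ) : ℂ) =
      ∑ j ∈ range T, ∑ k ∈ range T, ec (((j : ℝ) - k) * t) := by
    intro t
    push_cast
    rw [← Complex.mul_conj']
    unfold DS
    rw [map_sum, Finset.sum_mul_sum]
    refine Finset.sum_congr rfl fun j _ => Finset.sum_congr rfl fun k _ => ?_
    rw [← ec_neg, ← ec_add]
    congr 1
    ring
  have h2 : ((∑ a ∈ B, ‖DS T (L a)‖ ^ 2 : ℝ) : ℂ) =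
      ∑ j ∈ range T, ∑ k ∈ range T, ∑ a ∈ B, ec (((j : ℝ) - k) * L a) := by
    rw [Complex.ofReal_sum]
    simp_rw [hsq]
    rw [Finset.sum_comm]
    refine Finset.sum_congr rfl fun j _ => ?_
    rw [Finset.sum_comm]
  have h3 : ∑ a ∈ B, ‖DS T (L a)‖ ^ 2 ≤ T * A := by
    have e : ∑ a ∈ B, ‖DS T (L a)‖ ^ 2 = ‖((∑ a ∈ B, ‖DS T (L a)‖ ^ 2 : ℝ) : ℂ)‖ := by
      rw [Complex.norm_real, Real.norm_eq_abs, abs_of_nonneg]
      exact Finset.sum_nonneg fun _ _ => by positivity
    rw [e, h2]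
    refine (norm_sum_le _ _).trans ?_
    have hj : ∀ j ∈ range T, ‖∑ k ∈ range T, ∑ a ∈ B, ec (((j : ℝ) - k) * L a)‖ ≤ A := by
      intro j hj
      rw [mem_range] at hj
      refine (norm_sum_le _ _).trans ?_
      have hmem : j ∈ range T := mem_range.2 hj
      rw [← Finset.sum_erase_add _ _ hmem]
      have hsplit : (range T).erase j = Finset.range j ∪ Ico (j + 1) T := by
        ext k; simp; omega
      have hdisj : Disjoint (Finset.range j) (Ico (j + 1) T) := by
        rw [Finset.disjoint_left]; intro k hk hk'; simp at hk hk'; omega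
      rw [hsplit, Finset.sum_union hdisj]
      have hI : ∑ k ∈ range j, ‖∑ a ∈ B, ec (((j : ℝ) - k) * L a)‖ ≤
          ∑ h ∈ Ico 1 T, Pr θ H h := by
        calc ∑ k ∈ range j, ‖∑ a ∈ B, ec (((j : ℝ) - k) * L a)‖
            ≤ ∑ k ∈ range j, Pr θ H (j - k) := by
              refine Finset.sum_le_sum fun k hk => ?_
              rw [mem_range] at hk
              refine boxB_le m H θ β hθ (j - k) (by omega) _ (Or.inl ?_)
              rw [Nat.cast_sub hk.le]
          _ = ∑ h ∈ (range j).image (fun k => j - k), Pr θ H h := by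
              rw [Finset.sum_image]
              intro a ha b hb hab
              simp only [coe_range, Set.mem_Iio] at ha hb
              simp only at hab
              omega
          _ ≤ ∑ h ∈ Ico 1 T, Pr θ H h := by
              refine Finset.sum_le_sum_of_subset_of_nonneg ?_ fun h _ _ => Pr_nonneg m H θ h
              intro x hx
              simp only [mem_image, mem_range, mem_Ico] at hx ⊢
              omega
      have hII : ∑ k ∈ Ico (j + 1) T, ‖∑ a ∈ B, ec (((j : ℝ) - k) * L a)‖ ≤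
          ∑ h ∈ Ico 1 T, Pr θ H h := by
        calc ∑ k ∈ Ico (j + 1) T, ‖∑ a ∈ B, ec (((j : ℝ) - k) * L a)‖
            ≤ ∑ k ∈ Ico (j + 1) T, Pr θ H (k - j) := by
              refine Finset.sum_le_sum fun k hk => ?_
              rw [mem_Ico] at hk
              refine boxB_le m H θ β hθ (k - j) (by omega) _ (Or.inr ?_)
              rw [Nat.cast_sub (by omega)]
              ring
          _ = ∑ h ∈ (Ico (j + 1) T).image (fun k => k - j), Pr θ H h := by
              rw [Finset.sum_image]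
              intro a ha b hb hab
              simp only [coe_Ico, Set.mem_Ico] at ha hb
              simp only at hab
              omega
          _ ≤ ∑ h ∈ Ico 1 T, Pr θ H h := by
              refine Finset.sum_le_sum_of_subset_of_nonneg ?_ fun h _ _ => Pr_nonneg m H θ h
              intro x hx
              simp only [mem_image, mem_Ico] at hx ⊢
              omega
      have hIII : ‖∑ a ∈ B, ec (((j : ℝ) - j) * L a)‖ ≤ (2 * (H : ℝ) + 1) ^ m := by
        simp only [sub_self, zero_mul]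
        rw [ec_zero, Finset.sum_const, nsmul_eq_mul, mul_one, Complex.norm_natCast, hB,
          Fintype.card_piFinset]
        simp only [Int.card_Icc, prod_const, card_univ, Fintype.card_fin]
        have : ((H : ℤ) + 1 - -(H : ℤ)).toNat = 2 * H + 1 := by omega
        rw [this]
        push_cast
        exact le_rfl
      rw [hA]
      linarith
    calc ∑ j ∈ range T, ‖∑ k ∈ range T, ∑ a ∈ B, ec (((j : ℝ) - k) * L a)‖
        ≤ ∑ j ∈ range T, A := Finset.sum_le_sum hj
      _ = T * A := by rw [Finset.sum_const, card_range, nsmul_eq_mul]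
  -- conclusion
  have h4 : (S.card : ℝ) * (2 * T / Real.pi) ^ 2 ≤ T * A := h1.trans h3
  have h5 : (S.card : ℝ) ≤ T * A * (Real.pi / (2 * T)) ^ 2 := by
    have h6 : (S.card : ℝ) = (S.card : ℝ) * (2 * T / Real.pi) ^ 2 * (Real.pi / (2 * T)) ^ 2 := by
      field_simp
    rw [h6]
    gcongr
  refine h5.trans ?_
  have h7 : T * A * (Real.pi / (2 * T)) ^ 2 = (Real.pi ^ 2 / 4) / T * A := by
    field_simp
    norm_num
  rw [h7]
  have hpi4 : Real.pi < 3.15 := Real.pi_lt_d2
  have hpi3 : 3 < Real.pi := Real.pi_gt_three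
  have hpisq : Real.pi ^ 2 / 4 ≤ 3 := by nlinarith
  gcongr

end Pool.Agent.Helper96.LF
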